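import Pool.Agent.Helper236.K4

/-! # Conjugation and norms in finite fields of square order -/

namespace Pool.Agent.Helper335.Herm

open Set Module Submodule Pool.Agent.Helper236

theorem exists_conj (F : Type) [Field F] [Finite F] (h : IsSquare (Nat.card F)) :
    ∃ σ : F →+* F, (∀ x, σ (σ x) = x) ∧ ∀ c, σ c = c → ∃ x, x * σ x = c := by
  classical
  have : Fintype F := Fintype.ofFinite F
  obtain ⟨p, hp⟩ := CharP.exists F
  obtain ⟨n, hpp, hcard⟩ := FiniteField.card F p
  have hfact : Fact p.Prime := ⟨hpp⟩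
  have hexp : ExpChar F p := ExpChar.prime hpp
  obtain ⟨Q, hQ⟩ := h
  rw [Nat.card_eq_fintype_card, hcard] at hQ
  obtain ⟨m, -, hm⟩ := (Nat.dvd_prime_pow hpp).1 (Dvd.intro_left Q hQ.symm)
  have hcard' : Fintype.card F = Q * Q := by rw [hcard, hQ]
  have hQ1 : 1 < Q := by
    by_contra hle
    have h1 : Fintype.card F ≤ 1 := by
      rw [hcard']
      nlinarith
    have h2 := Fintype.one_lt_card (α := F)
    omega
  have hσ : ∀ x : F, iterateFrobenius F p m x = x ^ Q := by
    intro x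
    rw [iterateFrobenius_def, hm]
  have hinv : ∀ x : F, iterateFrobenius F p m (iterateFrobenius F p m x) = x := by
    intro x
    rw [hσ, hσ, ← pow_mul, ← hcard', FiniteField.pow_card]
  refine ⟨iterateFrobenius F p m, hinv, ?_⟩
  intro c hc
  by_cases hc0 : c = 0
  · exact ⟨0, by rw [hc0, zero_mul]⟩
  rw [hσ] at hc
  obtain ⟨g, hg⟩ := IsCyclic.exists_generator (α := Fˣ)
  set u : Fˣ := Units.mk0 c hc0 with hu
  obtain ⟨k, hk⟩ := (mem_powers_iff_mem_zpowers (x := g) (y := u)).2 (hg u)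
  have hord : orderOf g = (Q - 1) * (Q + 1) := by
    rw [orderOf_eq_card_of_forall_mem_zpowers hg, Nat.card_units, Nat.card_eq_fintype_card,
      hcard']
    obtain ⟨r, rfl⟩ : ∃ r, Q = r + 1 := ⟨Q - 1, by omega⟩
    simp only [Nat.add_sub_cancel]
    rw [show (r + 1) * (r + 1) = r * (r + 1 + 1) + 1 by ring, Nat.add_sub_cancel]
  have hu1 : u ^ (Q - 1) = 1 := by
    have h1 : u ^ Q = u := by
      apply Units.ext
      rw [Units.val_pow_eq_pow_val]
      exact hc
    have h2 : u ^ (Q - 1) * u = 1 * u := by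
      rw [← pow_succ, one_mul, Nat.sub_add_cancel hQ1.le, h1]
    exact mul_right_cancel h2
  have hk' : g ^ k = u := hk
  have hdvd : (Q - 1) * (Q + 1) ∣ (Q - 1) * k := by
    rw [← hord]
    apply orderOf_dvd_of_pow_eq_one
    rw [mul_comm, pow_mul, hk', hu1]
  obtain ⟨j, hj⟩ := Nat.dvd_of_mul_dvd_mul_left (by omega : 0 < Q - 1) hdvd
  refine ⟨((g ^ j : Fˣ) : F), ?_⟩
  rw [hσ, ← pow_succ', ← Units.val_pow_eq_pow_val, ← pow_mul, mul_comm j, ← hj, hk']
  rfl

end Pool.Agent.Helper335.Herm
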