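import Pool.Agent.Helper335.Herm.Conj

/-! # The points of the Hermitian curve -/

namespace Pool.Agent.Helper335.Herm

open Set Module Submodule Pool.Agent.Helper236

variable {F : Type} [Field F]

theorem gram_full (σ : F →+* F) (x y z : Fin 3 → F) :
    det3 x y z * σ (det3 x y z) =
      herm σ x x * (herm σ y y * herm σ z z - herm σ y z * herm σ z y)
      - herm σ x y * (herm σ y x * herm σ z z - herm σ y z * herm σ z x)
      + herm σ x z * (herm σ y x * herm σ z y - herm σ y y * herm σ z x) := by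
  simp only [herm, det3, map_add, map_mul, map_sub]
  ring

theorem herm_add_smul (σ : F →+* F) (t : F) (x y : Fin 3 → F) :
    herm σ (t • x + y) (t • x + y) =
      t * σ t * herm σ x x + t * herm σ x y + σ t * herm σ y x + herm σ y y := by
  simp only [herm, Pi.add_apply, Pi.smul_apply, smul_eq_mul, map_add, map_mul]
  ring

/-- Every two-dimensional space contains a nonzero isotropic vector. -/
theorem exists_isotropic (σ : F →+* F) (hσ : ∀ x, σ (σ x) = x)
    (hn : ∀ c, σ c = c → ∃ x, x * σ x = c) (u w : Fin 3 → F)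
    (huw : ∀ a b : F, a • u + b • w = 0 → a = 0 ∧ b = 0) :
    ∃ a b : F, a • u + b • w ≠ 0 ∧ herm σ (a • u + b • w) (a • u + b • w) = 0 := by
  by_cases hα : herm σ u u = 0
  · refine ⟨1, 0, ?_, ?_⟩
    · intro h
      exact one_ne_zero (huw 1 0 h).1
    · rwa [one_smul, zero_smul, add_zero]
  set α := herm σ u u with hαd
  set γ := herm σ w u / α with hγ
  set w' : Fin 3 → F := w - γ • u with hw'
  have h1 : herm σ w' u = 0 := by
    have : herm σ w' u = herm σ w u - γ * α := by
      simp only [hw', hαd, herm, Pi.sub_apply, Pi.smul_apply, smul_eq_mul]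
      ring
    rw [this, hγ]
    field_simp
    ring
  have h2 : herm σ u w' = 0 := by
    rw [← herm_conj σ hσ w' u, h1, map_zero]
  have hαα : σ α = α := herm_conj σ hσ u u
  have hββ : σ (herm σ w' w') = herm σ w' w' := herm_conj σ hσ w' w'
  obtain ⟨t, ht⟩ := hn (- herm σ w' w' / α) (by rw [map_div₀, map_neg, hββ, hαα])
  refine ⟨t - γ, 1, ?_, ?_⟩
  · intro h
    exact one_ne_zero (huw _ _ h).2
  · have h3 : (t - γ) • u + (1 : F) • w = t • u + w' := by
      rw [hw', sub_smul, one_smul]
      abel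
    rw [h3, herm_add_smul, h1, h2, ht]
    field_simp
    ring

/-- Every line meets the Hermitian curve. -/
theorem exists_isotropic_line (σ : F →+* F) (hσ : ∀ x, σ (σ x) = x)
    (hn : ∀ c, σ c = c → ∃ x, x * σ x = c) (a b c : F) :
    ∃ x : Fin 3 → F, x ≠ 0 ∧ herm σ x x = 0 ∧ ev3 a b c x = 0 := by
  have key : ∃ u w : Fin 3 → F, ev3 a b c u = 0 ∧ ev3 a b c w = 0 ∧
      ∀ r s : F, r • u + s • w = 0 → r = 0 ∧ s = 0 := by
    by_cases ha : a = 0
    · by_cases hb : b = 0
      · refine ⟨![1, 0, 0], ![0, 1, 0], ?_, ?_, ?_⟩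
        · simp [ev3, ha]
        · simp [ev3, hb]
        · intro r s h
          have h0 := congrFun h 0
          have h1 := congrFun h 1
          simp at h0 h1
          exact ⟨h0, h1⟩
      · refine ⟨![1, 0, 0], ![0, -c, b], ?_, ?_, ?_⟩
        · simp [ev3, ha]
        · simp [ev3]
          ring
        · intro r s h
          have h0 := congrFun h 0
          have h2 := congrFun h 2
          simp at h0 h2
          exact ⟨h0, h2.resolve_right hb⟩
    · refine ⟨![-b, a, 0], ![-c, 0, a], ?_, ?_, ?_⟩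
      · simp [ev3]
        ring
      · simp [ev3]
        ring
      · intro r s h
        have h1 := congrFun h 1
        have h2 := congrFun h 2
        simp at h1 h2
        exact ⟨h1.resolve_right ha, h2.resolve_right ha⟩
  obtain ⟨u, w, hu, hw, huw⟩ := key
  obtain ⟨r, s, h1, h2⟩ := exists_isotropic σ hσ hn u w huw
  refine ⟨_, h1, h2, ?_⟩
  have h3 : ev3 a b c (r • u + s • w) = r * ev3 a b c u + s * ev3 a b c w := by
    simp only [ev3, Pi.add_apply, Pi.smul_apply, smul_eq_mul]
    ring
  rw [h3, hu, hw, mul_zero, mul_zero, add_zero]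

/-- An isotropic vector orthogonal to an isotropic vector is a multiple of it. -/
theorem tangent (σ : F →+* F) (x y : Fin 3 → F) (hx0 : x ≠ 0)
    (hx : herm σ x x = 0) (hy : herm σ y y = 0) (hxy : herm σ x y = 0) (hyx : herm σ y x = 0) :
    ∃ c : F, y = c • x := by
  have hdet : ∀ z, det3 x y z = 0 := by
    intro z
    have h := gram_full σ x y z
    rw [hx, hy, hxy, hyx] at h
    have h1 : det3 x y z * σ (det3 x y z) = 0 := by
      rw [h]
      ring
    rcases mul_eq_zero.1 h1 with h2 | h2
    · exact h2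
    · simpa using h2
  have e0 := hdet ![1, 0, 0]
  have e1 := hdet ![0, 1, 0]
  have e2 := hdet ![0, 0, 1]
  simp only [det3, Matrix.cons_val_zero, Matrix.cons_val_one, Matrix.cons_val] at e0 e1 e2
  have hne : ∃ i, x i ≠ 0 := by
    by_contra hcon
    push Not at hcon
    exact hx0 (funext hcon)
  have hall : ∀ i j : Fin 3, x i * y j = x j * y i := by
    intro i j
    have a01 : x 0 * y 1 = x 1 * y 0 := by linear_combination e2
    have a02 : x 0 * y 2 = x 2 * y 0 := by linear_combination -e1
    have a12 : x 1 * y 2 = x 2 * y 1 := by linear_combination e0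
    fin_cases i <;> fin_cases j <;>
      first
        | rfl
        | exact a01
        | exact a01.symm
        | exact a02
        | exact a02.symm
        | exact a12
        | exact a12.symm
  obtain ⟨i, hi⟩ := hne
  refine ⟨y i / x i, ?_⟩
  ext j
  simp only [Pi.smul_apply, smul_eq_mul]
  have := hall i j
  field_simp
  linear_combination this

/-- the chosen representatives of the projective points -/
def Normed (x : Fin 3 → F) : Prop :=
  x 0 = 1 ∨ (x 0 = 0 ∧ x 1 = 1) ∨ (x 0 = 0 ∧ x 1 = 0 ∧ x 2 = 1)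

theorem normed_ne_zero {x : Fin 3 → F} (h : Normed x) : x ≠ 0 := by
  rintro rfl
  rcases h with h | ⟨_, h⟩ | ⟨_, _, h⟩ <;> simp at h

theorem exists_normed {x : Fin 3 → F} (hx : x ≠ 0) : ∃ c : F, c ≠ 0 ∧ Normed (c • x) := by
  by_cases h0 : x 0 = 0
  · by_cases h1 : x 1 = 0
    · have h2 : x 2 ≠ 0 := by
        intro h2
        apply hx
        ext i
        fin_cases i
        · exact h0
        · exact h1
        · exact h2
      refine ⟨(x 2)⁻¹, inv_ne_zero h2, Or.inr (Or.inr ⟨?_, ?_, ?_⟩)⟩
      · simp [h0]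
      · simp [h1]
      · simp [h2]
    · refine ⟨(x 1)⁻¹, inv_ne_zero h1, Or.inr (Or.inl ⟨?_, ?_⟩)⟩
      · simp [h0]
      · simp [h1]
  · refine ⟨(x 0)⁻¹, inv_ne_zero h0, Or.inl ?_⟩
    simp [h0]

theorem normed_unique {x y : Fin 3 → F} (hx : Normed x) (hy : Normed y) {c : F}
    (h : c • x = y) : x = y := by
  have hc : c = 1 := by
    have e0 := congrFun h 0
    have e1 := congrFun h 1
    have e2 := congrFun h 2
    simp only [Pi.smul_apply, smul_eq_mul] at e0 e1 e2
    have hy0 := normed_ne_zero hy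
    rcases hx with h1 | ⟨h1, h1'⟩ | ⟨h1, h1', h1''⟩ <;>
      rcases hy with h2 | ⟨h2, h2'⟩ | ⟨h2, h2', h2''⟩
    · rw [h1, h2, mul_one] at e0
      exact e0
    · rw [h1, h2, mul_one] at e0
      rw [e0, zero_mul, h2'] at e1
      exact absurd e1 (by simp)
    · rw [h1, h2, mul_one] at e0
      rw [e0, zero_mul, h2''] at e2
      exact absurd e2 (by simp)
    · rw [h1, h2, mul_zero] at e0
      exact absurd e0 (by simp)
    · rw [h1', h2', mul_one] at e1
      exact e1
    · rw [h1', h2', mul_one] at e1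
      rw [e1, zero_mul, h2''] at e2
      exact absurd e2 (by simp)
    · rw [h1, h2, mul_zero] at e0
      exact absurd e0 (by simp)
    · rw [h1', h2', mul_zero] at e1
      exact absurd e1 (by simp)
    · rw [h1'', h2'', mul_one] at e2
      exact e2
  rw [← h, hc, one_smul]

/-- All facts about the points of the Hermitian curve. -/
theorem exists_points (F : Type) [Field F] [Finite F] (h : IsSquare (Nat.card F))
    (h2 : (2 : F) ≠ 0) :
    ∃ (σ : F →+* F) (m : ℕ) (pt : Fin m → (Fin 3 → F)),
      (∀ i, pt i ≠ 0) ∧ (∀ i j, i ≠ j → ∀ c : F, c • pt i ≠ pt j) ∧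
      (∀ i, herm σ (pt i) (pt i) = 0) ∧ (∀ a b c : F, ∃ i, ev3 a b c (pt i) = 0) ∧
      (∀ i, ∃ a b c : F, ev3 a b c (pt i) = 0 ∧ ∀ j, j ≠ i → ev3 a b c (pt j) ≠ 0) ∧
      ∃ i j l, det3 (pt i) (pt j) (pt l) ≠ 0 := by
  classical
  obtain ⟨σ, hσ, hn⟩ := exists_conj F h
  let S := {x : Fin 3 → F // Normed x ∧ herm σ x x = 0}
  have hS : Finite S := inferInstance
  let e : S ≃ Fin (Nat.card S) := Finite.equivFin S
  let pt : Fin (Nat.card S) → (Fin 3 → F) := fun i => (e.symm i).1
  have hpt : ∀ x : Fin 3 → F, x ≠ 0 → herm σ x x = 0 → ∃ i, ∃ c : F, c ≠ 0 ∧ pt i = c • x := by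
    intro x hx hxx
    obtain ⟨c, hc, hcx⟩ := exists_normed hx
    have hcxx : herm σ (c • x) (c • x) = 0 := by
      have : herm σ (c • x) (c • x) = c * σ c * herm σ x x := by
        simp only [herm, Pi.smul_apply, smul_eq_mul, map_mul]
        ring
      rw [this, hxx, mul_zero]
    refine ⟨e ⟨c • x, hcx, hcxx⟩, c, hc, ?_⟩
    simp [pt]
  have hev : ∀ (a b c d : F) (x : Fin 3 → F), ev3 a b c (d • x) = d * ev3 a b c x := by
    intro a b c d x
    simp only [ev3, Pi.smul_apply, smul_eq_mul]
    ring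
  refine ⟨σ, Nat.card S, pt, fun i => normed_ne_zero (e.symm i).2.1, ?_,
    fun i => (e.symm i).2.2, ?_, ?_, ?_⟩
  · intro i j hij c hc
    have h3 := normed_unique (e.symm i).2.1 (e.symm j).2.1 hc
    exact hij (e.symm.injective (Subtype.ext h3))
  · intro a b c
    obtain ⟨x, hx, hxx, hxe⟩ := exists_isotropic_line σ hσ hn a b c
    obtain ⟨i, d, hd, hi⟩ := hpt x hx hxx
    exact ⟨i, by rw [hi, hev, hxe, mul_zero]⟩
  · intro i
    refine ⟨σ (pt i 0), σ (pt i 1), σ (pt i 2), ?_, ?_⟩
    · have h3 := (e.symm i).2.2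
      have h4 : ev3 (σ (pt i 0)) (σ (pt i 1)) (σ (pt i 2)) (pt i) = herm σ (pt i) (pt i) := by
        simp only [ev3, herm]
        ring
      rw [h4]
      exact h3
    · intro j hji h0
      have h4 : ev3 (σ (pt i 0)) (σ (pt i 1)) (σ (pt i 2)) (pt j) = herm σ (pt j) (pt i) := by
        simp only [ev3, herm]
        ring
      rw [h4] at h0
      have h5 : herm σ (pt i) (pt j) = 0 := by
        rw [← herm_conj σ hσ (pt j) (pt i), h0, map_zero]
      obtain ⟨c, hc⟩ := tangent σ (pt i) (pt j) (normed_ne_zero (e.symm i).2.1)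
        (e.symm i).2.2 (e.symm j).2.2 h5 h0
      have h6 := normed_unique (e.symm i).2.1 (e.symm j).2.1 hc.symm
      exact hji (e.symm.injective (Subtype.ext h6)).symm
  · obtain ⟨t, ht⟩ := hn (-1) (by rw [map_neg, map_one])
    have ht0 : t ≠ 0 := by
      rintro rfl
      rw [zero_mul] at ht
      have : (1 : F) = 0 := by linear_combination ht
      exact one_ne_zero this
    have ht1 : 1 + t ≠ 0 := by
      intro h3
      have h4 : t = -1 := by linear_combination h3
      rw [h4, map_neg, map_one] at ht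
      apply h2
      linear_combination ht
    have hx1 : herm σ (![1, t, 0] : Fin 3 → F) ![1, t, 0] = 0 := by
      simp only [herm, Matrix.cons_val_zero, Matrix.cons_val_one, Matrix.cons_val, map_one,
        map_zero]
      linear_combination ht
    have hx2 : herm σ (![1, 0, t] : Fin 3 → F) ![1, 0, t] = 0 := by
      simp only [herm, Matrix.cons_val_zero, Matrix.cons_val_one, Matrix.cons_val, map_one,
        map_zero]
      linear_combination ht
    have hx3 : herm σ (![0, 1, t] : Fin 3 → F) ![0, 1, t] = 0 := by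
      simp only [herm, Matrix.cons_val_zero, Matrix.cons_val_one, Matrix.cons_val, map_one,
        map_zero]
      linear_combination ht
    have hn1 : (![1, t, 0] : Fin 3 → F) ≠ 0 := fun h => one_ne_zero (congrFun h 0)
    have hn2 : (![1, 0, t] : Fin 3 → F) ≠ 0 := fun h => one_ne_zero (congrFun h 0)
    have hn3 : (![0, 1, t] : Fin 3 → F) ≠ 0 := fun h => one_ne_zero (congrFun h 1)
    obtain ⟨i, c1, hc1, h3⟩ := hpt _ hn1 hx1
    obtain ⟨j, c2, hc2, h4⟩ := hpt _ hn2 hx2
    obtain ⟨l, c3, hc3, h5⟩ := hpt _ hn3 hx3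
    refine ⟨i, j, l, ?_⟩
    have h6 : det3 (pt i) (pt j) (pt l) = c1 * c2 * c3 * (-(t * (1 + t))) := by
      rw [h3, h4, h5]
      simp only [det3, Pi.smul_apply, smul_eq_mul, Matrix.cons_val_zero, Matrix.cons_val_one,
        Matrix.cons_val]
      ring
    rw [h6]
    exact mul_ne_zero (mul_ne_zero (mul_ne_zero hc1 hc2) hc3)
      (neg_ne_zero.2 (mul_ne_zero ht0 ht1))

end Pool.Agent.Helper335.Herm
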